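import Pool.Graph.R_seed8.Results.MP_fe6d1a_gt.NotFuchsian

/-! No homeomorphism conjugates infinitely many of the elements `a * g k * b` into the Moebius
group. -/

set_option autoImplicit false
open Set Topology Filter

namespace Pool.Agent.KS6_77.PantsSub

open Pool.Agent.W983.PL Pool.Agent.W791.PC.NF

theorem not_moebius {F : ℕ → ℝ ≃o ℝ} {g : ℕ → HC} (hg : IsGen F g) {A : Set ℕ} (hA : A.Infinite)
    (a b φ : HC) : ∃ k ∈ A, ¬ IsMoebius (φ * (a * g k * b) * φ⁻¹) := by
  by_contra hcon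
  push Not at hcon
  have hBC : S_BC := Pool.Agent.W571.PC.t_BC
  have hMAP : S_MAP := Pool.Agent.W381.PCMap.map hBC
  obtain ⟨hb, -, hlim⟩ := hBC
  -- limits
  have hbl : Tendsto bb atTop (𝓝 (1 / 8)) := by
    rw [Metric.tendsto_atTop]
    intro ε hε
    obtain ⟨N, hN⟩ := hlim ε hε
    refine ⟨N, fun k hk => ?_⟩
    have h1 := hN k hk
    have h2 := (hb k).2.2.2.1
    rw [Real.dist_eq, abs_lt]
    constructor <;> linarith
  have hcl : Tendsto cc atTop (𝓝 (1 / 8)) := by
    refine tendsto_of_tendsto_of_tendsto_of_le_of_le hbl tendsto_const_nhds ?_ ?_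
    · intro k; exact (hb k).2.1.le
    · intro k; exact (hb k).2.2.2.2.1.le
  set ψ : HC := φ * a with hψ
  set χ : HC := φ * b⁻¹ with hχ
  have lim1 : ∀ p : Circle, (∀ k, p ∈ LL k) →
      Tendsto (fun k => ((ψ (g k p) : Circle) : ℂ)) atTop (𝓝 ((ψ (E (3 / 8)) : Circle) : ℂ)) := by
    intro p hp
    have h1 : Tendsto (fun k => co (g k p)) atTop (𝓝 (3 / 8)) := by
      have ha : Tendsto (fun k => 1 / 2 - cc k) atTop (𝓝 (3 / 8)) := by
        have := hcl.const_sub (1 / 2)
        norm_num at this ⊢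
        exact this
      have hb' : Tendsto (fun k => 1 / 2 - bb k) atTop (𝓝 (3 / 8)) := by
        have := hbl.const_sub (1 / 2)
        norm_num at this ⊢
        exact this
      refine tendsto_of_tendsto_of_tendsto_of_le_of_le ha hb' ?_ ?_
      · intro k; exact ((hMAP F g hg k p).1 (hp k)).1
      · intro k; exact ((hMAP F g hg k p).1 (hp k)).2
    have h2 : Tendsto (fun k => E (co (g k p))) atTop (𝓝 (E (3 / 8))) :=
      (continuous_E.tendsto _).comp h1
    simp only [E_co] at h2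
    have h3 : Continuous fun z : Circle => ((ψ z : Circle) : ℂ) :=
      continuous_subtype_val.comp ψ.continuous
    exact (h3.tendsto _).comp h2
  have lim2 : ∀ p : Circle, (∀ k, p ∈ RT k) →
      Tendsto (fun k => ((ψ (g k p) : Circle) : ℂ)) atTop (𝓝 ((ψ (E (5 / 8)) : Circle) : ℂ)) := by
    intro p hp
    have h1 : Tendsto (fun k => co (g k p)) atTop (𝓝 (5 / 8)) := by
      have ha : Tendsto (fun k => 1 / 2 + bb k) atTop (𝓝 (5 / 8)) := by
        have := hbl.const_add (1 / 2)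
        norm_num at this ⊢
        exact this
      have hb' : Tendsto (fun k => 1 / 2 + cc k) atTop (𝓝 (5 / 8)) := by
        have := hcl.const_add (1 / 2)
        norm_num at this ⊢
        exact this
      refine tendsto_of_tendsto_of_tendsto_of_le_of_le ha hb' ?_ ?_
      · intro k; exact ((hMAP F g hg k p).2.1 (hp k)).1
      · intro k; exact ((hMAP F g hg k p).2.1 (hp k)).2
    have h2 : Tendsto (fun k => E (co (g k p))) atTop (𝓝 (E (5 / 8))) :=
      (continuous_E.tendsto _).comp h1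
    simp only [E_co] at h2
    have h3 : Continuous fun z : Circle => ((ψ z : Circle) : ℂ) :=
      continuous_subtype_val.comp ψ.continuous
    exact (h3.tendsto _).comp h2
  -- the four points
  have hp1 : ∀ k, E (1 / 32) ∈ LL k := by
    intro k
    left
    rw [co_E_of (by norm_num) (by norm_num)]
    have := (hb k).1
    linarith
  have hp2 : ∀ k, E (31 / 32) ∈ LL k := by
    intro k
    right
    rw [co_E_of (by norm_num) (by norm_num)]
    have := (hb k).1
    linarith
  have hq1 : ∀ k, E (1 / 4) ∈ RT k := by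
    intro k
    have := (hb k).2.2.2.2.1
    constructor
    · rw [co_E_of (by norm_num) (by norm_num)]; linarith
    · rw [co_E_of (by norm_num) (by norm_num)]; linarith
  have hq2 : ∀ k, E (1 / 2) ∈ RT k := by
    intro k
    have := (hb k).2.2.2.2.1
    constructor
    · rw [co_E_of (by norm_num) (by norm_num)]; linarith
    · rw [co_E_of (by norm_num) (by norm_num)]; linarith
  have hcr : ∀ k ∈ A, ((ψ (g k (E (1 / 32))) : ℂ) - ψ (g k (E (1 / 4)))) *
      ((ψ (g k (E (31 / 32))) : ℂ) - ψ (g k (E (1 / 2)))) *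
      (((χ (E (1 / 32)) : ℂ) - χ (E (1 / 2))) * ((χ (E (31 / 32)) : ℂ) - χ (E (1 / 4)))) =
      ((ψ (g k (E (1 / 32))) : ℂ) - ψ (g k (E (1 / 2)))) *
      ((ψ (g k (E (31 / 32))) : ℂ) - ψ (g k (E (1 / 4)))) *
      (((χ (E (1 / 32)) : ℂ) - χ (E (1 / 4))) * ((χ (E (31 / 32)) : ℂ) - χ (E (1 / 2)))) := by
    intro k hk
    have hm := hcon k hk
    have e : ∀ z, (φ * (a * g k * b) * φ⁻¹) (χ z) = ψ (g k z) := by
      intro z
      change φ (a (g k (b (φ.symm (φ (b.symm z)))))) = φ (a (g k z))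
      rw [φ.symm_apply_apply, b.apply_symm_apply]
    have := cross hm (χ (E (1 / 32))) (χ (E (31 / 32))) (χ (E (1 / 4))) (χ (E (1 / 2)))
    simpa only [e] using this
  have l1 := lim1 _ hp1
  have l2 := lim1 _ hp2
  have l3 := lim2 _ hq1
  have l4 := lim2 _ hq2
  have L := ((l1.sub l3).mul (l2.sub l4)).mul_const
    (((χ (E (1 / 32)) : ℂ) - χ (E (1 / 2))) * ((χ (E (31 / 32)) : ℂ) - χ (E (1 / 4))))
  have R := ((l1.sub l4).mul (l2.sub l3)).mul_const
    (((χ (E (1 / 32)) : ℂ) - χ (E (1 / 4))) * ((χ (E (31 / 32)) : ℂ) - χ (E (1 / 2))))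
  have hne : NeBot (atTop ⊓ 𝓟 A : Filter ℕ) :=
    Filter.frequently_mem_iff_neBot.1 (Nat.frequently_atTop_iff_infinite.2 hA)
  have hev : ∀ᶠ k in (atTop ⊓ 𝓟 A : Filter ℕ), k ∈ A := by
    have : A ∈ (atTop ⊓ 𝓟 A : Filter ℕ) := mem_inf_of_right (mem_principal_self A)
    exact this
  have hU := tendsto_nhds_unique_of_eventuallyEq (L.mono_left inf_le_left)
    (R.mono_left inf_le_left) (hev.mono fun k hk => hcr k hk)
  -- distinctness
  have inj : ∀ (θ : HC) (s t : ℝ), 0 ≤ s → s < 1 → 0 ≤ t → t < 1 → s ≠ t →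
      ((θ (E s) : Circle) : ℂ) - ((θ (E t) : Circle) : ℂ) ≠ 0 := by
    intro θ s t h1 h2 h3 h4 h5 h6
    have h7 : θ (E s) = θ (E t) := Subtype.ext (sub_eq_zero.1 h6)
    have h8 : E s = E t := θ.injective h7
    exact h5 (E_injOn h1 (by linarith) h3 (by linarith) h8)
  have hxa := inj ψ (3 / 8) (5 / 8) (by norm_num) (by norm_num) (by norm_num) (by norm_num)
    (by norm_num)
  have hpp := inj χ (1 / 32) (31 / 32) (by norm_num) (by norm_num) (by norm_num) (by norm_num)
    (by norm_num)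
  have hqq := inj χ (1 / 4) (1 / 2) (by norm_num) (by norm_num) (by norm_num) (by norm_num)
    (by norm_num)
  have key : (((ψ (E (3 / 8)) : ℂ) - ψ (E (5 / 8))) * ((ψ (E (3 / 8)) : ℂ) - ψ (E (5 / 8)))) *
      (((χ (E (1 / 32)) : ℂ) - χ (E (31 / 32))) * ((χ (E (1 / 4)) : ℂ) - χ (E (1 / 2)))) = 0 := by
    linear_combination -hU
  exact mul_ne_zero (mul_ne_zero hxa hxa) (mul_ne_zero hpp hqq) key

end Pool.Agent.KS6_77.PantsSub
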