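import Pool.Agent.KS6_77.PantsSub.Gen
import Pool.Agent.KS6_77.PantsSub.NF

/-! Subgroups of the group: all are pants-like, many are not Fuchsian. -/

set_option autoImplicit false
open Set Topology Filter Cardinal

namespace Pool.Agent.KS6_77.PantsSub

open Pool.Agent.W983.PL

/-- no homeomorphism of the circle conjugates `K` into the group of the Moebius maps -/
def NotMoebius (K : Subgroup HC) : Prop := ∀ φ : HC, ∃ h ∈ K, ¬ IsMoebius (φ * h * φ⁻¹)

theorem NotMoebius.not_fuchsian {K : Subgroup HC} (h : NotMoebius K) : ¬ IsFuchsian K := by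
  rintro ⟨φ, H, -, h2, -, -, h3⟩
  obtain ⟨k, hk, hk'⟩ := h φ
  exact hk' (h2 _ ((h3 k).1 hk))

/-- all the conditions of the question -/
def Good (K : Subgroup HC) : Prop :=
  Countable K ∧ (∀ h ∈ K, OrientationPreserving h) ∧ TorsionFree K ∧ Discrete K ∧ PantsLike K ∧
    Cusps K = ∅ ∧ ∀ h ∈ K, h ≠ 1 → {z : Circle | h z = z}.encard = 2

theorem good_sub {G K : Subgroup HC} (hK : K ≤ G) (h1 : Countable G)
    (h2 : ∀ h ∈ G, OrientationPreserving h) (h3 : TorsionFree G) (h4 : Discrete G)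
    (h5 : PantsLike G) (h6 : Cusps G = ∅)
    (h7 : ∀ h ∈ G, h ≠ 1 → ∃ p q, p ≠ q ∧ {z : Circle | h z = z} = {p, q}) : Good K := by
  have h6' : Cusps K = ∅ := by
    rw [Set.eq_empty_iff_forall_notMem] at h6 ⊢
    rintro x ⟨g, hg, hne, hx⟩
    exact h6 x ⟨g, hK hg, hne, hx⟩
  refine ⟨?_, fun h hh => h2 h (hK hh), fun g hg => h3 g (hK hg), fun g hg => ?_, ?_, h6', ?_⟩
  · exact (Set.Countable.mono (show (K : Set HC) ⊆ G from hK) (Set.countable_coe_iff.1 h1)).to_subtype
  · obtain ⟨U, u1, u2, u3⟩ := h4 g (hK hg)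
    exact ⟨U, u1, u2, fun h hh hU => u3 h (hK hh) hU⟩
  · obtain ⟨Λ₁, Λ₂, a1, a2, a3, a4, a5, a6, a7, a8, a9, a10⟩ := h5
    exact ⟨Λ₁, Λ₂, a1, a2, fun g hg => a3 g (hK hg), fun g hg => a4 g (hK hg), a5, a6, a7, a8, a9,
      by rw [a10, h6, h6']⟩
  · intro h hh hne
    obtain ⟨p, q, hpq, hz⟩ := h7 h (hK hh) hne
    rw [hz]
    exact Set.encard_pair hpq

theorem notMoebius_of {F : ℕ → ℝ ≃o ℝ} {g : ℕ → HC} (hg : IsGen F g) {A : Set ℕ}
    (hA : A.Infinite) {a b : HC} {K : Subgroup HC} (hK : ∀ k ∈ A, a * g k * b ∈ K) :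
    NotMoebius K := by
  intro φ
  obtain ⟨k, hk, h⟩ := not_moebius hg hA a b φ
  exact ⟨_, hK k hk, h⟩

theorem notMoebius_finiteIndex {F : ℕ → ℝ ≃o ℝ} {g : ℕ → HC} (hg : IsGen F g)
    {K : Subgroup HC} (hK : K.relIndex (FreeGroup.lift g).range ≠ 0) : NotMoebius K := by
  set G := (FreeGroup.lift g).range with hG
  have hgk : ∀ k, g k ∈ G := fun k => ⟨FreeGroup.of k, by simp⟩
  have hfi : (K.subgroupOf G).FiniteIndex := ⟨hK⟩
  let f : ℕ → G ⧸ K.subgroupOf G := fun k => ((⟨g k, hgk k⟩ : G) : G ⧸ K.subgroupOf G)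
  obtain ⟨y, hy⟩ := Finite.exists_infinite_fiber f
  have hA : (f ⁻¹' {y}).Infinite := Set.infinite_coe_iff.1 hy
  obtain ⟨j, hj⟩ := hA.nonempty
  refine notMoebius_of hg hA (a := (g j)⁻¹) (b := 1) fun k hk => ?_
  have h1 : f j = f k := by
    have e1 : f j = y := hj
    have e2 : f k = y := hk
    rw [e1, e2]
  have h2 := QuotientGroup.eq.1 h1
  rw [Subgroup.mem_subgroupOf] at h2
  rw [mul_one]
  exact h2

/-- the subgroup generated by some of the generators -/
noncomputable def gen (g : ℕ → HC) (A : Set ℕ) : Subgroup HC := Subgroup.closure (g '' A)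

theorem gen_le (g : ℕ → HC) (A : Set ℕ) : gen g A ≤ (FreeGroup.lift g).range := by
  rw [gen, Subgroup.closure_le]
  rintro _ ⟨k, -, rfl⟩
  exact ⟨FreeGroup.of k, by simp⟩

theorem mem_gen {g : ℕ → HC} (hinj : Function.Injective (FreeGroup.lift g)) {A : Set ℕ} {k : ℕ} :
    g k ∈ gen g A ↔ k ∈ A := by
  classical
  refine ⟨fun h => ?_, fun h => Subgroup.subset_closure ⟨k, h, rfl⟩⟩
  have e : gen g A = (Subgroup.closure (FreeGroup.of '' A)).map (FreeGroup.lift g) := by
    rw [gen, MonoidHom.map_closure, ← Set.image_comp]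
    congr 1
  rw [e] at h
  obtain ⟨w, hw, hwk⟩ := h
  have h1 : w = FreeGroup.of k := by
    apply hinj
    rw [hwk, FreeGroup.lift_apply_of]
  subst h1
  by_contra hk
  let τ : FreeGroup ℕ →* Multiplicative ℤ :=
    FreeGroup.lift fun i => if i = k then Multiplicative.ofAdd (1 : ℤ) else 1
  have h2 : Subgroup.closure (FreeGroup.of '' A) ≤ τ.ker := by
    rw [Subgroup.closure_le]
    rintro _ ⟨i, hi, rfl⟩
    have hik : i ≠ k := fun h => hk (h ▸ hi)
    simp [τ, MonoidHom.mem_ker, hik]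
  have h3 : τ (FreeGroup.of k) = 1 := h2 hw
  simp [τ] at h3

theorem card_eq {g : ℕ → HC} {F : ℕ → ℝ ≃o ℝ} (hg : IsGen F g)
    (hinj : Function.Injective (FreeGroup.lift g)) (hc : Countable (FreeGroup.lift g).range) :
    #{K : Subgroup HC // K ≤ (FreeGroup.lift g).range ∧ NotMoebius K} = 𝔠 := by
  apply le_antisymm
  · let ι : {K : Subgroup HC // K ≤ (FreeGroup.lift g).range ∧ NotMoebius K} →
        Set (FreeGroup.lift g).range := fun K => {x | x.1 ∈ K.1}
    have hι : Function.Injective ι := by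
      intro K L h
      apply Subtype.ext
      ext x
      constructor
      · intro hx
        have h1 : (⟨x, K.2.1 hx⟩ : (FreeGroup.lift g).range) ∈ ι K := hx
        rw [h] at h1
        exact h1
      · intro hx
        have h1 : (⟨x, L.2.1 hx⟩ : (FreeGroup.lift g).range) ∈ ι L := hx
        rw [← h] at h1
        exact h1
    refine (Cardinal.mk_le_of_injective hι).trans ?_
    rw [Cardinal.mk_set, ← Cardinal.two_power_aleph0]
    exact Cardinal.power_le_power_left two_ne_zero (Cardinal.mk_le_aleph0_iff.2 hc)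
  · let A : Set ℕ → Set ℕ := fun B => {n | n % 2 = 0 ∨ n / 2 ∈ B}
    have hA : ∀ B, (A B).Infinite := by
      intro B
      have : Set.range (fun n : ℕ => 2 * n) ⊆ A B := by
        rintro _ ⟨n, rfl⟩
        left
        simp
      exact (Set.infinite_range_of_injective fun a b h => by simpa using h).mono this
    let κ : Set ℕ → {K : Subgroup HC // K ≤ (FreeGroup.lift g).range ∧ NotMoebius K} := fun B =>
      ⟨gen g (A B), gen_le g _, notMoebius_of hg (hA B) (a := 1) (b := 1) fun k hk => by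
        rw [one_mul, mul_one]
        exact Subgroup.subset_closure ⟨k, hk, rfl⟩⟩
    have hκ : Function.Injective κ := by
      intro B C h
      have h1 : gen g (A B) = gen g (A C) := congrArg Subtype.val h
      ext n
      have h2 : ∀ D : Set ℕ, n ∈ D ↔ g (2 * n + 1) ∈ gen g (A D) := by
        intro D
        rw [mem_gen hinj]
        change n ∈ D ↔ ((2 * n + 1) % 2 = 0 ∨ (2 * n + 1) / 2 ∈ D)
        have e1 : (2 * n + 1) / 2 = n := by omega
        rw [e1]
        constructor
        · exact Or.inr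
        · rintro (h | h)
          · omega
          · exact h
      rw [h2 B, h2 C, h1]
    have := Cardinal.mk_le_of_injective hκ
    rwa [Cardinal.mk_set, Cardinal.mk_nat, Cardinal.two_power_aleph0] at this

end Pool.Agent.KS6_77.PantsSub
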